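import Pool.Agent.H56.BD.StmtsT

set_option autoImplicit false

namespace Pool.BD

open Relation

namespace F2c

variable {V : Type} {G : SimpleGraph V} {rk : V → ℕ} {H : Set V} {q : V} {Q : Set V} {L R : Ct V}
  {b : V}

/-- mirror image of the standing hypotheses -/
theorem NH.mir (h : NH G rk H q Q L R) : NH G rk H q Q R.mir L.mir := ⟨h.ok.mir, h.up, h.inj⟩

theorem Re.up (hup : Up G rk H q) {u v : V} (hu : u ∈ H) (h : Re G rk u v) (hq : u ≠ q)
    (hq2 : ∀ w, Re G rk u w → w ≠ q) : v ∈ H := by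
  induction h with
  | refl => exact hu
  | tail h1 h2 ih => exact hup _ ih (hq2 _ h1) _ h2

/-- a path to a vertex outside the hub from a source not reaching `q` stays outside the hub -/
theorem Re.out (hup : Up G rk H q) {a x y : V} (haq : ¬ Re G rk a q) (h : Re G rk a x)
    (h2 : Re G rk x y) (hy : y ∉ H) : x ∉ H := by
  intro hx
  apply hy
  refine Re.up hup hx h2 (fun he => haq (he ▸ h)) ?_
  intro w hw he
  exact haq (he ▸ h.trans hw)

/-- connection outside the hub -/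
theorem Re.cn (hup : Up G rk H q) {a x : V} (haq : ¬ Re G rk a q) (h : Re G rk a x)
    (hx : x ∉ H) {X : Set V} (hX : ∀ y, y ∉ H → Re G rk a y → y ∈ X) : Cn G X a x := by
  have key : ∀ y, Re G rk a y → Re G rk y x → Cn G X a y := by
    intro y h1 h2
    induction h1 with
    | refl =>
      have : a ∉ H := Re.out hup haq ReflTransGen.refl h2 hx
      exact ⟨hX _ this ReflTransGen.refl, ReflTransGen.refl⟩
    | @tail c d h3 h4 ih =>
      have h5 := ih (ReflTransGen.head h4 h2)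
      refine ⟨h5.1, h5.2.tail ⟨h4.1, hX _ (Re.out hup haq (ReflTransGen.tail h3 h4) h2 hx) (ReflTransGen.tail h3 h4)⟩⟩
  exact key x h ReflTransGen.refl

/-- entering the hub -/
theorem enter {a : V} (ha : a ∉ H) (h : Re G rk a b) (hb : b ∈ H) :
    ∃ x w, x ∉ H ∧ w ∈ H ∧ Re G rk a x ∧ Ar G rk x w ∧ Re G rk w b := by
  induction h using ReflTransGen.head_induction_on with
  | refl => exact absurd hb ha
  | @head c d h1 h2 ih =>
    by_cases hd : d ∈ H
    · exact ⟨c, d, ha, hd, ReflTransGen.refl, h1, h2⟩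
    · obtain ⟨x, w, h3, h4, h5, h6, h7⟩ := ih hd
      exact ⟨x, w, h3, h4, ReflTransGen.head h1 h5, h6, h7⟩

theorem q_mem {c : Ct V} (h : IsCt G H q Q c) (hr : ∀ v ∈ H, v ≠ q → rk (c.par v) < rk v)
    (hb : b ∈ H) : q ∈ Ds G rk H b := ⟨h.qH, (h.root_anc hr b hb).reach h hr⟩

theorem par_mem {c : Ct V} (h : IsCt G H q Q c) (hr : ∀ v ∈ H, v ≠ q → rk (c.par v) < rk v)
    {v : V} (hv : v ∈ Ds G rk H b) (hq : v ≠ q) : c.par v ∈ Ds G rk H b := by
  have h1 := h.par v hv.1 hq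
  exact ⟨h1.1, ReflTransGen.head ⟨h1.2, hr v hv.1 hq⟩ hv.2⟩

theorem anc_mem {c : Ct V} (h : IsCt G H q Q c) (hr : ∀ v ∈ H, v ≠ q → rk (c.par v) < rk v)
    {u v : V} (hv : v ∈ Ds G rk H b) (ha : Anc H q c u v) : u ∈ Ds G rk H b :=
  ⟨ha.mem h.qH (fun v hv hq => (h.par v hv hq).1) hv.1, (ha.reach h hr).trans hv.2⟩

/-- the dart where the path to `w` leaves `D` -/
theorem leave {c : Ct V} (h : IsCt G H q Q c) (hr : ∀ v ∈ H, v ≠ q → rk (c.par v) < rk v)
    (hb : b ∈ H) {w : V} (hw : w ∈ H) (hwD : w ∉ Ds G rk H b) :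
    ∃ z d, z ∈ Ds G rk H b ∧ d ∈ H ∧ d ≠ q ∧ d ∉ Ds G rk H b ∧ c.par d = z ∧ Anc H q c d w := by
  have key : ∀ x, Anc H q c x w → x ∈ Ds G rk H b → ∃ z d, z ∈ Ds G rk H b ∧ d ∈ H ∧ d ≠ q ∧ d ∉ Ds G rk H b ∧ c.par d = z ∧ Anc H q c d w := by
    intro x hx
    induction hx using ReflTransGen.head_induction_on with
    | refl => intro h1; exact absurd h1 hwD
    | @head e d h1 h2 ih =>
      intro h3
      by_cases hd : d ∈ Ds G rk H b
      · exact ih hd
      · exact ⟨e, d, h3, h1.1, h1.2.1, hd, h1.2.2, h2⟩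
  exact key q (h.root_anc hr w hw) (q_mem h hr hb)

/-- a tree path outside `D` is a connection -/
theorem anc_cn {c : Ct V} (h : IsCt G H q Q c) (hr : ∀ v ∈ H, v ≠ q → rk (c.par v) < rk v)
    {d w : V} (hd : d ∈ H) (hdD : d ∉ Ds G rk H b) (ha : Anc H q c d w) : Cn G (Ds G rk H b)ᶜ d w := by
  induction ha with
  | refl => exact ⟨hdD, ReflTransGen.refl⟩
  | @tail e f h1 h2 ih =>
    obtain ⟨hf, hfq, hfp⟩ := h2
    refine ⟨hdD, ih.2.tail ⟨hfp ▸ (h.par f hf hfq).2, ?_⟩⟩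
    intro hfD
    exact hdD (anc_mem h hr hfD (ReflTransGen.tail h1 ⟨hf, hfq, hfp⟩))

end F2c

open F2c in
theorem f2c (hRCL : RCL) (hK0 : K0) (hK1 : K1) (hK2 : K2) (hK4 : K4) : F2c := by
  intro V _ G rk H q Q L R b hN hS a ha haq hab
  have hL := hN.ok.isL
  have hR := hN.ok.isR
  have hrL := hN.ok.parL
  have hrR := hN.ok.parR
  have hbH := hS.1
  have hbq := hS.2.1
  have rungDn : ∀ {c : Ct V}, IsCt G H q Q c → ∀ w x, Rg G rk H q a w x → Dn G H q Q c w x ∧ ¬ Ch H q c w x := by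
    intro c hc w x hr
    obtain ⟨h1, h2, h3, h4, h5⟩ := hr
    refine ⟨⟨h1, h5.1.symm, fun he => absurd he h2, fun _ he => h3 (he ▸ (hc.par w h1 h2).1)⟩, fun h6 => h3 h6.1⟩
  obtain ⟨x, w, hxH, hwH, hax, hxw, hwb⟩ := enter ha hab hbH
  have hwq : w ≠ q := fun he => haq (he ▸ ReflTransGen.tail hax hxw)
  have hrg : Rg G rk H q a w x := ⟨hwH, hwq, hxH, hax, hxw⟩
  have hwD : w ∈ Ds G rk H b := ⟨hwH, hwb⟩
  have hxD : x ∉ Ds G rk H b := fun h => hxH h.1
  obtain ⟨hdL, hnL⟩ := rungDn hL w x hrg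
  obtain ⟨hdR, hnR⟩ := rungDn hR w x hrg
  have hpL := hL.dn _ _ hdL
  have hpR := hR.dn _ _ hdR
  by_cases hwb' : w = b
  · subst hwb'
    exact Or.inl ⟨w, x, hrg, hpL.2.le, le_rfl⟩
  have h1 := hRCL V G rk H q Q L R hN w hwH b hbH hwb
  by_cases hcase1 : L.pos w x ≤ L.hi b
  · left
    refine ⟨w, x, hrg, hcase1, ?_⟩
    rcases h1.1 with h2 | h2
    · exact (hL.anc_le h2).2
    · exact absurd (hpL.1.trans_le hcase1) (not_lt.2 h2.le)
  push Not at hcase1
  right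
  by_cases hcase2 : ∃ w x, Rg G rk H q a w x ∧ R.lo w ≤ R.lo b ∧ R.lo b ≤ R.pos w x
  · exact Or.inl hcase2
  right
  refine ⟨⟨w, x, hrg, hcase1⟩, ?_⟩
  -- position in R
  have hk4 := hK4 V G rk H q Q L R b hN hS
  have hlb := hR.lh b hbH
  have hlbL := hL.lh b hbH
  have hposR : R.pos w x < R.lo b := by
    rcases hk4 w hwD with h2 | h2
    · by_contra h3
      push Not at h3
      exact hcase2 ⟨w, x, hrg, (hR.anc_le h2).1, h3⟩
    · omega
  have hS' := hK1 V G rk H q Q L R b hN hS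
  have hm := hK2 V G rk H q Q R.mir L.mir b (NH.mir hN) hS' w hwD hwb' x hxD hxw.1.symm
    (fun he => absurd he hwq)
  have hcov : Cov G rk (Ds G rk H b) R.mir (R.mir.pos w x) := by
    by_contra hc
    have h2 := hm.1 ⟨by simp only [Ct.mir]; omega, hc⟩
    have h3 := h2.2
    simp only [Ct.mir] at h3
    omega
  obtain ⟨y1, hy1, y2, hy2, har, hpar, hc1, hc2⟩ := hcov
  simp only [Ct.mir] at hpar hc1 hc2
  have hc1' : R.pos w x < R.pos y2 y1 := by omega
  have hc2' : R.pos y1 y2 < R.pos w x := by omega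
  -- darts of the chord
  have hd21 : Dn G H q Q R y2 y1 :=
    ⟨hy2.1, har.1.symm, fun he => hR.QH y1 hy1.1 (he ▸ har.1.symm), fun _ he => hpar he.symm⟩
  have hd12 : Dn G H q Q R y1 y2 := by
    refine ⟨hy1.1, har.1, fun he => hR.QH y2 hy2.1 (he ▸ har.1), fun hne he => ?_⟩
    have h2 := hrR y1 hy1.1 hne
    rw [← he] at h2
    have := har.2
    omega
  have hn21 : ¬ Ch H q R y2 y1 := by
    rintro ⟨h2, h3, h4⟩
    have h5 := hrR y1 h2 h3
    rw [h4] at h5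
    have := har.2
    omega
  have hn12 : ¬ Ch H q R y1 y2 := fun h2 => hpar h2.2.2
  -- the chord ends left of hi b
  have hy2b : R.pos y2 y1 < R.hi b := by
    have h2 := hR.dn _ _ hd21
    by_cases he : y2 = b
    · subst he; exact h2.2
    · rcases hk4 y2 hy2 with h3 | h3
      · have h4 := hR.anc_block h3 he
        have h5 := hS'.2.2 y1 hy1.1 y2 hy2.1 har hpar (by simp only [Ct.mir]; omega) (by simp only [Ct.mir]; omega)
        simp only [Ct.mir] at h5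
        omega
      · omega
  intro w' x' hrg'
  obtain ⟨hdR', hnR'⟩ := rungDn hR w' x' hrg'
  have hpR' := hR.dn _ _ hdR'
  have hqD := q_mem hR hrR hbH
  have hDH : Ds G rk H b ⊆ H := fun v hv => hv.1
  have hXX : Cn G (Ds G rk H b)ᶜ x x' := by
    have h2 : Cn G (Ds G rk H b)ᶜ a x := Re.cn hN.up haq hax hxH (fun y hy _ h3 => hy h3.1)
    have h3 : Cn G (Ds G rk H b)ᶜ a x' := Re.cn hN.up haq hrg'.2.2.2.1 hrg'.2.2.1 (fun y hy _ h3 => hy h3.1)
    exact h2.symm'.trans' h3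
  have hft : ∀ u v, u ∈ Ds G rk H b → Dn G H q Q R u v → ¬ (Ch H q R u v ∧ v ∈ Ds G rk H b) →
      Ft G H (Ds G rk H b) q Q R (u, v) := fun u v h1 h2 h3 => ⟨h1, h2, h3⟩
  have hnc := hR.nc (Ds G rk H b) hDH hqD (fun v hv hq => par_mem hR hrR hv hq) ∅ (Ds G rk H b)ᶜ
    (Set.empty_disjoint _) (y1, y2) (y2, y1) (w, x)
  refine lt_trans ?_ hy2b
  by_cases hw'D : w' ∈ Ds G rk H b
  · have h2 := hnc (w', x') (hft _ _ hy1 hd12 (fun h => hn12 h.1)) (hft _ _ hy2 hd21 (fun h => hn21 h.1))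
      (hft _ _ hwD hdR (fun h => hnR h.1)) (hft _ _ hw'D hdR' (fun h => hnR' h.1))
      (Or.inl ⟨rfl, hy2, rfl⟩) (Or.inr ⟨disjoint_compl_left, hXX⟩)
    simp only at h2
    by_contra h3
    have h4 : R.pos y2 y1 ≠ R.pos w' x' := by
      intro he
      have h5 := hR.pos_inj hrR hd21 hn21 hdR' hnR' he
      exact hrg'.2.2.1 (h5.2 ▸ hy1.1)
    exact h2 ⟨hc2', hc1', by omega⟩
  · obtain ⟨z, d, hz, hdH, hdq, hdD, hdz, hdw⟩ := leave hR hrR hbH hrg'.1 hw'D
    have h5 := hR.ch_dn hrR hdH hdq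
    rw [hdz] at h5
    have h6 : Cn G (Ds G rk H b)ᶜ x d := by
      refine hXX.trans' (Cn.trans' ?_ (anc_cn hR hrR hdH hdD hdw).symm')
      exact Cn.single (hXX.right_mem) hw'D hrg'.2.2.2.2.1
    have h2 := hnc (z, d) (hft _ _ hy1 hd12 (fun h => hn12 h.1)) (hft _ _ hy2 hd21 (fun h => hn21 h.1))
      (hft _ _ hwD hdR (fun h => hnR h.1)) (hft _ _ hz h5 (fun h => hdD h.2))
      (Or.inl ⟨rfl, hy2, rfl⟩) (Or.inr ⟨disjoint_compl_left, h6⟩)
    simp only at h2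
    have h7 := hR.ch d hdH hdq
    rw [hdz] at h7
    have h8 := hR.anc_le hdw
    have h9 : ¬ Anc H q R d y2 := fun h => hdD (anc_mem hR hrR hy2 h)
    rcases hR.dart_side hrR hd21 hn21 hdH h9 with h10 | h10
    · exact absurd ⟨hc2', hc1', by omega⟩ h2
    · omega

end Pool.BD
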